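import Mathlib

set_option autoImplicit false

/-!
Acyclic oriented graphs, the associated partial order, its dimension, books in three-space and
order-preserving embeddings.  Main result: for every `n ≥ 3` and every book with `n` pages there are
bounded acyclic oriented graphs of arbitrarily large dimension with an order-preserving embedding in
that book.
-/

namespace Pool.Agent.Results.MP_c8a2a1_co.BookDimension

/-- Euclidean three-space; the coordinates are `p 0`, `p 1`, `p 2`, and height means `p 2`. -/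
abbrev R3 : Type := EuclideanSpace ℝ (Fin 3)

/-- An acyclic oriented graph on the vertex set `V`: `arc b a` says that there is an arc from `b` to
`a`.  Acyclicity rules out loops and pairs of opposite arcs. -/
structure Aograph (V : Type) where
  arc : V → V → Prop
  acyclic : ∀ v : V, ¬ Relation.TransGen arc v v

/-- The order `P(G)`: `a ≤ b` iff there is a directed path (possibly trivial) from `b` to `a`. -/
def Aograph.le {V : Type} (G : Aograph V) (a b : V) : Prop := Relation.ReflTransGen G.arc b a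

/-- `G` is bounded if `P(G)` has a greatest and a least element. -/
def Aograph.Bounded {V : Type} (G : Aograph V) : Prop :=
  (∃ t : V, ∀ a : V, G.le a t) ∧ (∃ b : V, ∀ a : V, G.le b a)

/-- `L` is a linear extension of the relation `le`. -/
def IsLinExt {V : Type} (le L : V → V → Prop) : Prop :=
  (∀ a, L a a) ∧ (∀ a b, L a b → L b a → a = b) ∧ (∀ a b c, L a b → L b c → L a c) ∧
    (∀ a b, L a b ∨ L b a) ∧ (∀ a b, le a b → L a b)

/-- `le` is the intersection of `t` linear extensions. -/
def HasRealizer {V : Type} (le : V → V → Prop) (t : ℕ) : Prop :=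
  ∃ L : Fin t → V → V → Prop, (∀ i, IsLinExt le (L i)) ∧ ∀ a b, le a b ↔ ∀ i, L i a b

/-- The dimension of an acyclic oriented graph: the least positive `t` such that `P(G)` is the
intersection of `t` linear extensions. -/
noncomputable def Aograph.dim {V : Type} (G : Aograph V) : ℕ :=
  sInf {t : ℕ | 0 < t ∧ HasRealizer G.le t}

/-- `S` is a closed half-plane whose boundary is the `z`-axis. -/
def IsPage (S : Set R3) : Prop :=
  ∃ u v : ℝ, (u ≠ 0 ∨ v ≠ 0) ∧ S = {p : R3 | ∃ r : ℝ, 0 ≤ r ∧ p 0 = r * u ∧ p 1 = r * v}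

/-- `B` is a book with `n` pages: the union of `n` distinct closed half-planes whose common boundary
is the `z`-axis. -/
def IsBook (n : ℕ) (B : Set R3) : Prop :=
  ∃ H : Fin n → Set R3, Function.Injective H ∧ (∀ i, IsPage (H i)) ∧ B = ⋃ i, H i

/-- The polygonal line through the listed points. -/
def polyline {E : Type} [AddCommGroup E] [Module ℝ E] : List E → Set E
  | [] => ∅
  | [p] => {p}
  | p :: q :: l => segment ℝ p q ∪ polyline (q :: l)

/-- The heights of the listed points strictly decrease along the list. -/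
def Descending (l : List R3) : Prop := l.Pairwise (fun p q => q 2 < p 2)

/-- `G` has an order-preserving embedding in the set `B` of three-space: distinct vertices are placed
at distinct points of `B`; the arc from `b` to `a` is drawn as a polygonal line inside `B`, starting
at `b`, ending at `a`, along which the height strictly decreases (so it is a simple piecewise linear
arc); an arc contains no vertex other than its two ends, and two distinct arcs meet only in common
endpoints. -/
def Aograph.EmbedsIn {V : Type} (G : Aograph V) (B : Set R3) : Prop :=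
  ∃ (pos : V → R3) (chain : V → V → List R3),
    Function.Injective pos ∧
    (∀ v, pos v ∈ B) ∧
    (∀ b a, G.arc b a → (chain b a).head? = some (pos b) ∧ (chain b a).getLast? = some (pos a) ∧
      Descending (chain b a) ∧ polyline (chain b a) ⊆ B) ∧
    (∀ b a v, G.arc b a → pos v ∈ polyline (chain b a) → v = b ∨ v = a) ∧
    (∀ b a b' a', G.arc b a → G.arc b' a' → ¬ (b = b' ∧ a = a') →
      ∀ p : R3, p ∈ polyline (chain b a) → p ∈ polyline (chain b' a') →
        ∃ v : V, (v = b ∨ v = a) ∧ (v = b' ∨ v = a') ∧ p = pos v)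

/-! ### Existence of realizers -/

section realizer

variable {V : Type}

theorem le_refl' (G : Aograph V) (a : V) : G.le a a := Relation.ReflTransGen.refl

theorem le_trans' (G : Aograph V) {a b c : V} (h1 : G.le a b) (h2 : G.le b c) : G.le a c :=
  Relation.ReflTransGen.trans h2 h1

theorem le_antisymm' (G : Aograph V) {a b : V} (h1 : G.le a b) (h2 : G.le b a) : a = b := by
  by_contra hne
  have h1' : Relation.TransGen G.arc b a := by
    rcases Relation.reflTransGen_iff_eq_or_transGen.1 h1 with h | h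
    · exact absurd h hne
    · exact h
  have h2' : Relation.TransGen G.arc a b := by
    rcases Relation.reflTransGen_iff_eq_or_transGen.1 h2 with h | h
    · exact absurd h.symm hne
    · exact h
  exact G.acyclic a (h2'.trans h1')

theorem exists_linExt (G : Aograph V) (a b : V) (hab : ¬ G.le a b) :
    ∃ L : V → V → Prop, IsLinExt G.le L ∧ ¬ L a b := by
  classical
  let r : V → V → Prop := fun x y => G.le x y ∨ (G.le x b ∧ G.le a y)
  have hr : IsPartialOrder V r :=
    { refl := fun x => Or.inl (le_refl' G x)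
      trans := by
        rintro x y z (h1 | ⟨h1, h1'⟩) (h2 | ⟨h2, h2'⟩)
        · exact Or.inl (le_trans' G h1 h2)
        · exact Or.inr ⟨le_trans' G h1 h2, h2'⟩
        · exact Or.inr ⟨h1, le_trans' G h1' h2⟩
        · exact absurd (le_trans' G h1' h2) hab
      antisymm := by
        rintro x y (h1 | ⟨h1, h1'⟩) (h2 | ⟨h2, h2'⟩)
        · exact le_antisymm' G h1 h2
        · exact absurd (le_trans' G h2' (le_trans' G h1 h2)) hab
        · exact absurd (le_trans' G h1' (le_trans' G h2 h1)) hab
        · exact absurd (le_trans' G h1' h2) hab }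
  obtain ⟨s, hs, hrs⟩ := extend_partialOrder r
  refine ⟨s, ⟨fun x => refl_of s x, fun x y => antisymm_of s, fun x y z => trans_of s,
    fun x y => total_of s x y, fun x y h => hrs x y (Or.inl h)⟩, ?_⟩
  intro h
  have hba : s b a := hrs b a (Or.inr ⟨le_refl' G b, le_refl' G a⟩)
  have : a = b := antisymm_of s h hba
  subst this
  exact hab (le_refl' G a)

theorem exists_realizer [Fintype V] [Nonempty V] (G : Aograph V) :
    ∃ t, 0 < t ∧ HasRealizer G.le t := by
  classical
  have key : ∀ q : V × V, ∃ L : V → V → Prop, IsLinExt G.le L ∧ (¬ G.le q.1 q.2 → ¬ L q.1 q.2) := by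
    intro q
    by_cases h : G.le q.1 q.2
    · have hr : IsPartialOrder V G.le :=
        { refl := le_refl' G
          trans := fun x y z => le_trans' G
          antisymm := fun x y => le_antisymm' G }
      obtain ⟨s, hs, hrs⟩ := extend_partialOrder G.le
      exact ⟨s, ⟨fun x => refl_of s x, fun x y => antisymm_of s, fun x y z => trans_of s,
        fun x y => total_of s x y, fun x y h => hrs x y h⟩, fun h' => absurd h h'⟩
    · obtain ⟨L, hL, hL'⟩ := exists_linExt G q.1 q.2 h
      exact ⟨L, hL, fun _ => hL'⟩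
  choose L hL hL' using key
  let e := Fintype.equivFin (V × V)
  refine ⟨Fintype.card (V × V), Fintype.card_pos, fun i => L (e.symm i), fun i => hL _, ?_⟩
  intro a b
  constructor
  · intro h i
    exact (hL _).2.2.2.2 a b h
  · intro h
    by_contra hab
    have := hL' (a, b) hab
    apply this
    have := h (e (a, b))
    simpa using this

end realizer

/-! ### The graph -/

/-- The vertices: `top`, `bot`, the vertices `a i`, and the strand vertices `w j i`. -/
inductive Vx (m : ℕ) : Type
  | top : Vx m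
  | bot : Vx m
  | a (i : Fin m) : Vx m
  | w (j i : Fin m) : Vx m
  deriving DecidableEq, Fintype

variable {m : ℕ}

/-- Arcs of the graph. -/
def arc : Vx m → Vx m → Prop
  | .top, .w _ i => i.val = 0
  | .w j i, .w j' i' => j = j' ∧ i'.val = i.val + 1
  | .w _ i, .bot => i.val + 1 = m
  | .w j i, .a i' => i = i' ∧ j ≠ i
  | .a _, .bot => True
  | _, _ => False

/-- depth of the strand vertex `w j i` -/
def dep (j i : Fin m) : ℕ := i.val * m + (if i.val % 2 = 0 then j.val else m - 1 - j.val)

theorem dep_lower (j i : Fin m) : i.val * m ≤ dep j i := Nat.le_add_right _ _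

theorem dep_upper (j i : Fin m) : dep j i + 1 ≤ i.val * m + m := by
  unfold dep
  have := j.isLt
  split_ifs <;> omega

theorem dep_succ (j i i' : Fin m) (h : i'.val = i.val + 1) :
    dep j i + dep j i' + 1 = 2 * (i.val * m + m) := by
  unfold dep
  have := j.isLt
  rw [h, add_mul, one_mul]
  split_ifs <;> omega

theorem dep_inj_left (j j' i : Fin m) (h : dep j i = dep j' i) : j = j' := by
  unfold dep at h
  have := j.isLt
  have := j'.isLt
  apply Fin.ext
  split_ifs at h <;> omega

theorem dep_inj {j j' i i' : Fin m} (h : dep j i = dep j' i') : j = j' ∧ i = i' := by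
  have h1 := dep_lower j i
  have h2 := dep_upper j i
  have h3 := dep_lower j' i'
  have h4 := dep_upper j' i'
  have hi : i.val = i'.val := by
    by_contra hne
    rcases Nat.lt_or_gt_of_ne hne with hlt | hlt
    · have : (i.val + 1) * m ≤ i'.val * m := Nat.mul_le_mul_right m hlt
      rw [add_mul, one_mul] at this
      omega
    · have : (i'.val + 1) * m ≤ i.val * m := Nat.mul_le_mul_right m hlt
      rw [add_mul, one_mul] at this
      omega
  have hi' : i = i' := Fin.ext hi
  subst hi'
  exact ⟨dep_inj_left j j' i h, rfl⟩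


/-! ### Planar coordinates

Points of a page are written `(r, y)`, where `r ≥ 0` is the distance coordinate along the page and
`y` is the depth, that is minus the height. -/

/-- planar position of a vertex -/
noncomputable def pos2 : Vx m → ℝ × ℝ
  | .top => (1, -1)
  | .bot => (0, (m : ℝ) * m + 1)
  | .a i => ((m : ℝ) - i.val, (i.val : ℝ) * m + m - 1 / 2)
  | .w j i => (0, (dep j i : ℝ))

/-- page of a vertex (irrelevant for vertices on the axis) -/
def pg : Vx m → Fin 3
  | .top => 1
  | .bot => 0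
  | .a _ => 2
  | .w _ _ => 0

/-- the page alternates with the parity -/
def par (i : Fin m) : Fin 3 := if i.val % 2 = 0 then 0 else 1

/-- page of an arc -/
def page : Vx m → Vx m → Fin 3
  | .top, _ => 1
  | .w _ i, .w _ _ => par i
  | .w _ i, .bot => par i
  | .w _ _, .a _ => 2
  | .a _, _ => 2
  | _, _ => 0

/-- chain of an arc in planar coordinates -/
noncomputable def chain2 : Vx m → Vx m → List (ℝ × ℝ)
  | .top, .w j i => [pos2 (m := m) .top, pos2 (.w j i)]
  | .w j i, .w j' i' => [pos2 (.w j i),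
      ((i.val : ℝ) * m + m - 1 / 2 - (dep j i : ℝ), (i.val : ℝ) * m + m - 1 / 2), pos2 (.w j' i')]
  | .w j i, .bot => [pos2 (.w j i), ((m : ℝ) * m - (dep j i : ℝ), (m : ℝ) * m), pos2 (m := m) .bot]
  | .w j i, .a i' => [pos2 (.w j i), pos2 (.a i')]
  | .a i, .bot => [pos2 (.a i), ((m : ℝ) - i.val, (m : ℝ) * m), pos2 (m := m) .bot]
  | _, _ => []

/-- equations of the arcs -/
def OnArc : Vx m → Vx m → ℝ → ℝ → Prop
  | .top, .w j i => fun r y => ∃ t : ℝ, 0 ≤ t ∧ t ≤ 1 ∧ r = 1 - t ∧ y = -(1 - t) + t * (dep j i : ℝ)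
  | .w j i, .w j' i' => fun r y => 0 ≤ r ∧
      ((y = (dep j i : ℝ) + r ∧ y ≤ (i.val : ℝ) * m + m - 1 / 2) ∨
        (y = (dep j' i' : ℝ) - r ∧ (i.val : ℝ) * m + m - 1 / 2 ≤ y))
  | .w j i, .bot => fun r y => (0 ≤ r ∧ y = (dep j i : ℝ) + r ∧ y ≤ (m : ℝ) * m) ∨
      (∃ t : ℝ, 0 ≤ t ∧ t ≤ 1 ∧ r = (1 - t) * ((m : ℝ) * m - (dep j i : ℝ)) ∧ y = (m : ℝ) * m + t)
  | .w j i, .a i' => fun r y => ∃ t : ℝ, 0 ≤ t ∧ t ≤ 1 ∧ r = t * ((m : ℝ) - i'.val) ∧
      y = (1 - t) * (dep j i : ℝ) + t * ((i'.val : ℝ) * m + m - 1 / 2)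
  | .a i, .bot => fun r y => (r = (m : ℝ) - i.val ∧ (i.val : ℝ) * m + m - 1 / 2 ≤ y ∧
        y ≤ (m : ℝ) * m) ∨
      (∃ t : ℝ, 0 ≤ t ∧ t ≤ 1 ∧ r = (1 - t) * ((m : ℝ) - i.val) ∧ y = (m : ℝ) * m + t)
  | _, _ => fun _ _ => False

theorem seg2 {p q x : ℝ × ℝ} (h : x ∈ segment ℝ p q) :
    ∃ t : ℝ, 0 ≤ t ∧ t ≤ 1 ∧ x.1 = (1 - t) * p.1 + t * q.1 ∧ x.2 = (1 - t) * p.2 + t * q.2 := by
  obtain ⟨a, b, ha, hb, hab, rfl⟩ := h
  refine ⟨b, hb, by linarith, ?_, ?_⟩
  · simp only [Prod.fst_add, Prod.smul_fst, smul_eq_mul]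
    rw [show 1 - b = a by linarith]
  · simp only [Prod.snd_add, Prod.smul_snd, smul_eq_mul]
    rw [show 1 - b = a by linarith]

theorem poly2 {p q x : ℝ × ℝ} (h : x ∈ polyline [p, q]) :
    ∃ t : ℝ, 0 ≤ t ∧ t ≤ 1 ∧ x.1 = (1 - t) * p.1 + t * q.1 ∧ x.2 = (1 - t) * p.2 + t * q.2 := by
  simp only [polyline, Set.mem_union, Set.mem_singleton_iff] at h
  rcases h with h | rfl
  · exact seg2 h
  · exact ⟨1, by norm_num, le_refl _, by ring, by ring⟩

theorem poly3 {p q s x : ℝ × ℝ} (h : x ∈ polyline [p, q, s]) :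
    (∃ t : ℝ, 0 ≤ t ∧ t ≤ 1 ∧ x.1 = (1 - t) * p.1 + t * q.1 ∧ x.2 = (1 - t) * p.2 + t * q.2) ∨
    (∃ t : ℝ, 0 ≤ t ∧ t ≤ 1 ∧ x.1 = (1 - t) * q.1 + t * s.1 ∧ x.2 = (1 - t) * q.2 + t * s.2) := by
  rw [polyline] at h
  rcases h with h | h
  · exact Or.inl (seg2 h)
  · exact Or.inr (poly2 h)

theorem fact1 (j i : Fin m) : (i.val : ℝ) * m ≤ dep j i := by exact_mod_cast dep_lower j i

theorem fact2 (j i : Fin m) : (dep j i : ℝ) + 1 ≤ (i.val : ℝ) * m + m := by
  exact_mod_cast dep_upper j i

theorem fact3 (j i i' : Fin m) (h : i'.val = i.val + 1) :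
    (dep j i : ℝ) + dep j i' + 1 = 2 * ((i.val : ℝ) * m + m) := by
  exact_mod_cast dep_succ j i i' h

theorem fact4 {a b : ℕ} (h : a < b) : (a : ℝ) * m + m ≤ (b : ℝ) * m := by
  have : (a + 1) * m ≤ b * m := Nat.mul_le_mul_right m h
  rw [add_mul, one_mul] at this
  exact_mod_cast this

theorem fact5 (i : Fin m) : (i.val : ℝ) * m + m ≤ (m : ℝ) * m := fact4 i.isLt

theorem fact6 (i : Fin m) : (0 : ℝ) ≤ (i.val : ℝ) * m := by positivity

theorem fact7 (i : Fin m) : (i.val : ℝ) + 1 ≤ m := by exact_mod_cast i.isLt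

theorem onArc_of_mem {b a : Vx m} (hba : arc b a) {x : ℝ × ℝ} (hx : x ∈ polyline (chain2 b a)) :
    OnArc b a x.1 x.2 := by
  rcases b with _ | _ | i | ⟨j, i⟩ <;> rcases a with _ | _ | i' | ⟨j', i'⟩ <;>
    simp only [arc] at hba <;> simp only [chain2] at hx <;> simp only [OnArc]
  · obtain ⟨t, h0, h1, h2, h3⟩ := poly2 hx
    simp only [pos2] at h2 h3
    exact ⟨t, h0, h1, by linarith, by linarith⟩
  · rcases poly3 hx with ⟨t, h0, h1, h2, h3⟩ | ⟨t, h0, h1, h2, h3⟩
    · left
      simp only [pos2] at h2 h3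
      have := fact5 i
      have h5 : 0 ≤ (m : ℝ) * m - ((i.val : ℝ) * m + m - 1 / 2) := by linarith
      refine ⟨by linarith, ?_, ?_⟩
      · nlinarith
      · nlinarith
    · right
      simp only [pos2] at h2 h3
      exact ⟨t, h0, h1, by linarith, by linarith⟩
  · rcases poly3 hx with ⟨t, h0, h1, h2, h3⟩ | ⟨t, h0, h1, h2, h3⟩
    · left
      simp only [pos2] at h2 h3
      have h6 := fact2 j i
      have h5 := fact5 i
      have h7 : 0 ≤ (m : ℝ) * m - (dep j i : ℝ) := by linarith
      refine ⟨?_, ?_, ?_⟩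
      · rw [h2]; nlinarith
      · rw [h2, h3]; ring
      · rw [h3]; nlinarith
    · right
      simp only [pos2] at h2 h3
      exact ⟨t, h0, h1, by linarith, by linarith⟩
  · obtain ⟨t, h0, h1, h2, h3⟩ := poly2 hx
    simp only [pos2] at h2 h3
    exact ⟨t, h0, h1, by linarith, by linarith⟩
  · obtain ⟨rfl, hi⟩ := hba
    have h6 := fact2 j i
    have h8 := fact3 j i i' hi
    have h7 : 0 ≤ (i.val : ℝ) * m + m - 1 / 2 - (dep j i : ℝ) := by linarith
    rcases poly3 hx with ⟨t, h0, h1, h2, h3⟩ | ⟨t, h0, h1, h2, h3⟩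
    · simp only [pos2] at h2 h3
      refine ⟨?_, Or.inl ⟨?_, ?_⟩⟩
      · rw [h2]; nlinarith
      · rw [h2, h3]; ring
      · rw [h3]; nlinarith
    · simp only [pos2] at h2 h3
      refine ⟨?_, Or.inr ⟨?_, ?_⟩⟩
      · rw [h2]; nlinarith
      · rw [h2, h3]
        have : (dep j i' : ℝ) = 2 * ((i.val : ℝ) * m + m) - 1 - dep j i := by linarith
        rw [this]; ring
      · rw [h3]; nlinarith


theorem onArc_nonneg {b a : Vx m} (hba : arc b a) {r y : ℝ} (h : OnArc b a r y) : 0 ≤ r := by
  rcases b with _ | _ | i | ⟨j, i⟩ <;> rcases a with _ | _ | i' | ⟨j', i'⟩ <;>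
    simp only [arc] at hba <;> simp only [OnArc] at h
  · obtain ⟨t, h0, h1, h2, h3⟩ := h; linarith
  · have := fact7 i
    rcases h with ⟨h2, h3, h4⟩ | ⟨t, h0, h1, h2, h3⟩
    · linarith
    · rw [h2]; exact mul_nonneg (by linarith) (by linarith)
  · have h5 := fact5 i
    have h6 := fact2 j i
    rcases h with ⟨h2, h3, h4⟩ | ⟨t, h0, h1, h2, h3⟩
    · linarith
    · rw [h2]; exact mul_nonneg (by linarith) (by linarith)
  · obtain ⟨t, h0, h1, h2, h3⟩ := h
    have := fact7 i'
    rw [h2]; exact mul_nonneg (by linarith) (by linarith)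
  · exact h.1

/-- an arc meets the axis only at its ends -/
theorem spine {b a : Vx m} (hba : arc b a) {y : ℝ} (h : OnArc b a 0 y) :
    ∃ v, (v = b ∨ v = a) ∧ ((0 : ℝ), y) = pos2 v := by
  rcases b with _ | _ | i | ⟨j, i⟩ <;> rcases a with _ | _ | i' | ⟨j', i'⟩ <;>
    simp only [arc] at hba <;> simp only [OnArc] at h
  · obtain ⟨t, h0, h1, h2, h3⟩ := h
    refine ⟨_, Or.inr rfl, ?_⟩
    have : t = 1 := by linarith
    subst this
    simp only [pos2, Prod.mk.injEq, true_and]
    linarith
  · have := fact7 i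
    rcases h with ⟨h2, h3, h4⟩ | ⟨t, h0, h1, h2, h3⟩
    · linarith
    · refine ⟨_, Or.inr rfl, ?_⟩
      have h5 : (1 - t) = 0 := by
        rcases mul_eq_zero.1 h2.symm with h | h
        · exact h
        · linarith
      simp only [pos2, Prod.mk.injEq, true_and]
      linarith
  · have h5 := fact5 i
    have h6 := fact2 j i
    rcases h with ⟨h2, h3, h4⟩ | ⟨t, h0, h1, h2, h3⟩
    · refine ⟨_, Or.inl rfl, ?_⟩
      simp only [pos2, Prod.mk.injEq, true_and]
      linarith
    · refine ⟨_, Or.inr rfl, ?_⟩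
      have h5 : (1 - t) = 0 := by
        rcases mul_eq_zero.1 h2.symm with h | h
        · exact h
        · linarith
      simp only [pos2, Prod.mk.injEq, true_and]
      linarith
  · obtain ⟨t, h0, h1, h2, h3⟩ := h
    have := fact7 i'
    refine ⟨_, Or.inl rfl, ?_⟩
    have h5 : t = 0 := by
      rcases mul_eq_zero.1 h2.symm with h | h
      · exact h
      · linarith
    subst h5
    simp only [pos2, Prod.mk.injEq, true_and]
    linarith
  · rcases h.2 with ⟨h2, h3⟩ | ⟨h2, h3⟩
    · refine ⟨_, Or.inl rfl, ?_⟩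
      simp only [pos2, Prod.mk.injEq, true_and]
      linarith
    · refine ⟨_, Or.inr rfl, ?_⟩
      simp only [pos2, Prod.mk.injEq, true_and]
      linarith

theorem dep_inj_real {j j' i i' : Fin m} (h : (dep j i : ℝ) = dep j' i') : j = j' ∧ i = i' :=
  dep_inj (by exact_mod_cast h)

theorem par_eq {i i' : Fin m} (h : par i = par i') : i.val % 2 = i'.val % 2 := by
  unfold par at h
  split_ifs at h with h1 h2 h2 <;> omega

theorem par_one {i : Fin m} (h : (1 : Fin 3) = par i) : i.val % 2 = 1 := by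
  unfold par at h
  split_ifs at h with h1
  · exact absurd h (by decide)
  · omega

theorem par_ne_two (i : Fin m) : par i ≠ 2 := by
  unfold par
  split_ifs <;> decide

/-- statement of disjointness for two arcs in the same page -/
def Meet (b a b' a' : Vx m) (r y : ℝ) : Prop :=
  ∃ v, (v = b ∨ v = a) ∧ (v = b' ∨ v = a') ∧ (r, y) = pos2 v ∧ (r = 0 ∨ pg v = page b a)

theorem meet_symm {b a b' a' : Vx m} {r y : ℝ} (hp : page b a = page b' a')
    (h : Meet b a b' a' r y) : Meet b' a' b a r y := by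
  obtain ⟨v, h1, h2, h3, h4⟩ := h
  exact ⟨v, h2, h1, h3, by rw [← hp]; exact h4⟩

/-- type 1 arcs -/
theorem meet11 {j i j' i' : Fin m} (hi : i.val = 0) (hi' : i'.val = 0) (hne : ¬ j = j')
    {r y : ℝ} (h : OnArc .top (.w j i) r y) (h' : OnArc .top (.w j' i') r y) :
    Meet .top (.w j i) .top (.w j' i') r y := by
  obtain ⟨t, h0, h1, h2, h3⟩ := h
  obtain ⟨t', h0', h1', h2', h3'⟩ := h'
  have htt : t = t' := by linarith
  subst htt
  have hii : i = i' := Fin.ext (by omega)
  subst hii
  have h5 : t * ((dep j i : ℝ) - dep j' i) = 0 := by linarith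
  rcases mul_eq_zero.1 h5 with h6 | h6
  · refine ⟨.top, Or.inl rfl, Or.inl rfl, ?_, Or.inr rfl⟩
    subst h6
    simp only [pos2, Prod.mk.injEq]
    constructor <;> linarith
  · exact absurd (dep_inj_real (show (dep j i : ℝ) = dep j' i by linarith)).1 hne

theorem lower12 {j i : Fin m} {r y : ℝ} (hi : i.val = 0) (h : OnArc .top (.w j i) r y) :
    y + 1 ≤ m := by
  obtain ⟨t, h0, h1, h2, h3⟩ := h
  have h4 := fact2 j i
  rw [hi] at h4
  simp only [Nat.cast_zero, zero_mul, zero_add] at h4
  have h5 : (0 : ℝ) ≤ dep j i := Nat.cast_nonneg _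
  nlinarith

theorem range2 {j i j' i' : Fin m} (hi : i'.val = i.val + 1) {r y : ℝ}
    (h : OnArc (.w j i) (.w j' i') r y) :
    (i.val : ℝ) * m ≤ y ∧ y + 1 ≤ (i.val : ℝ) * m + m + m := by
  have h1 := fact1 j i
  have h2 := fact2 j' i'
  have h3 : (i'.val : ℝ) * m = (i.val : ℝ) * m + m := by rw [hi]; push_cast; ring
  rw [h3] at h2
  have h5 : (1 : ℝ) ≤ m := by
    have := fact7 i
    have h6 : (0 : ℝ) ≤ i.val := Nat.cast_nonneg _
    linarith
  obtain ⟨h0, ⟨h6, h7⟩ | ⟨h6, h7⟩⟩ := h
  · constructor <;> linarith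
  · constructor <;> linarith

theorem lower3 {j i : Fin m} {r y : ℝ} (h : OnArc (.w j i) .bot r y) : (i.val : ℝ) * m ≤ y := by
  have h1 := fact1 j i
  have h2 := fact5 i
  have h5 : (1 : ℝ) ≤ m := by
    have := fact7 i
    have h6 : (0 : ℝ) ≤ i.val := Nat.cast_nonneg _
    linarith
  rcases h with ⟨h0, h6, h7⟩ | ⟨t, h0, h1', h6, h7⟩
  · linarith
  · linarith

theorem meet22 {j i k l j' i' k' l' : Fin m} (hj : j = k) (hi : l.val = i.val + 1)
    (hj' : j' = k') (hi' : l'.val = i'.val + 1) (hp : par i = par i')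
    (hne : ¬ (Vx.w j i = Vx.w j' i' ∧ Vx.w k l = Vx.w k' l'))
    {r y : ℝ} (h : OnArc (.w j i) (.w k l) r y) (h' : OnArc (.w j' i') (.w k' l') r y) :
    False := by
  subst hj
  subst hj'
  have hr := range2 hi h
  have hr' := range2 hi' h'
  have hm := par_eq hp
  rcases Nat.lt_trichotomy i.val i'.val with hlt | heq | hlt
  · have h2 : i.val + 1 < i'.val := by omega
    have h3 := fact4 (m := m) h2
    push_cast at h3
    linarith
  · have hii : i = i' := Fin.ext heq
    subst hii
    have hll : l = l' := Fin.ext (by omega)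
    subst hll
    have e1 := fact3 j i l hi
    have e2 := fact3 j' i l hi
    have hjj : j ≠ j' := by
      rintro rfl
      exact hne ⟨rfl, rfl⟩
    have key : (dep j i : ℝ) = dep j' i ∨ (dep j l : ℝ) = dep j' l := by
      obtain ⟨h0, ⟨h6, h7⟩ | ⟨h6, h7⟩⟩ := h <;> obtain ⟨h0', ⟨h6', h7'⟩ | ⟨h6', h7'⟩⟩ := h'
      · left; linarith
      · left; linarith
      · left; linarith
      · right; linarith
    rcases key with h | h
    · exact hjj (dep_inj_real h).1
    · exact hjj (dep_inj_real h).1
  · have h2 : i'.val + 1 < i.val := by omega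
    have h3 := fact4 (m := m) h2
    push_cast at h3
    linarith

theorem meet33 {j i j' i' : Fin m} (hi : i.val + 1 = m) (hi' : i'.val + 1 = m) (hne : ¬ j = j')
    {r y : ℝ} (h : OnArc (.w j i) .bot r y) (h' : OnArc (.w j' i') .bot r y) :
    Meet (.w j i) .bot (.w j' i') .bot r y := by
  have hii : i = i' := Fin.ext (by omega)
  subst hii
  have key : (dep j i : ℝ) ≠ dep j' i := fun h => hne (dep_inj_real h).1
  have h5 := fact5 i
  have h6 := fact2 j i
  have h7 := fact2 j' i
  rcases h with ⟨h2, h3, h4⟩ | ⟨t, h0, h1, h2, h3⟩ <;>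
    rcases h' with ⟨h2', h3', h4'⟩ | ⟨t', h0', h1', h2', h3'⟩
  · exact absurd (by linarith) key
  · have ht : t' = 0 := by linarith
    subst ht
    exact absurd (by linarith) key
  · have ht : t = 0 := by linarith
    subst ht
    exact absurd (by linarith) key
  · have htt : t = t' := by linarith
    subst htt
    have h8 : (1 - t) * ((dep j i : ℝ) - dep j' i) = 0 := by linarith
    rcases mul_eq_zero.1 h8 with h9 | h9
    · refine ⟨.bot, Or.inr rfl, Or.inr rfl, ?_, Or.inl ?_⟩
      · simp only [pos2, Prod.mk.injEq]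
        rw [h9] at h2
        constructor <;> linarith
      · rw [h9] at h2; linarith
    · exact absurd (by linarith) key

theorem range4 {j i i' : Fin m} (hi : i = i') {r y : ℝ} (h : OnArc (.w j i) (.a i') r y) :
    (i.val : ℝ) * m ≤ y ∧ y ≤ (i.val : ℝ) * m + m - 1 / 2 ∧ r ≤ (m : ℝ) - i.val := by
  subst hi
  obtain ⟨t, h0, h1, h2, h3⟩ := h
  have h4 := fact1 j i
  have h5 := fact2 j i
  have h6 := fact7 i
  refine ⟨?_, ?_, ?_⟩
  · rw [h3]; nlinarith
  · rw [h3]; nlinarith
  · rw [h2]; nlinarith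

theorem meet44 {j i k j' i' k' : Fin m} (hi : i = k) (hi' : i' = k')
    (hne : ¬ (Vx.w j i = Vx.w j' i' ∧ Vx.a k = Vx.a k'))
    {r y : ℝ} (h : OnArc (.w j i) (.a k) r y) (h' : OnArc (.w j' i') (.a k') r y) :
    Meet (.w j i) (.a k) (.w j' i') (.a k') r y := by
  have hr := range4 hi h
  have hr' := range4 hi' h'
  subst hi
  subst hi'
  rcases Nat.lt_trichotomy i.val i'.val with hlt | heq | hlt
  · have h3 := fact4 (m := m) hlt
    exfalso
    linarith
  · have hii : i = i' := Fin.ext heq
    subst hii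
    obtain ⟨t, h0, h1, h2, h3⟩ := h
    obtain ⟨t', h0', h1', h2', h3'⟩ := h'
    have h6 := fact7 i
    have htt : (t - t') * ((m : ℝ) - i.val) = 0 := by linarith
    have htt' : t = t' := by
      rcases mul_eq_zero.1 htt with h | h
      · linarith
      · linarith
    subst htt'
    have h8 : (1 - t) * ((dep j i : ℝ) - dep j' i) = 0 := by linarith
    rcases mul_eq_zero.1 h8 with h9 | h9
    · have ht1 : t = 1 := by linarith
      subst ht1
      refine ⟨.a i, Or.inr rfl, Or.inr rfl, ?_, Or.inr rfl⟩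
      simp only [pos2, Prod.mk.injEq]
      constructor <;> linarith
    · exfalso
      apply hne
      have := (dep_inj_real (show (dep j i : ℝ) = dep j' i by linarith)).1
      subst this
      exact ⟨rfl, rfl⟩
  · have h3 := fact4 (m := m) hlt
    exfalso
    linarith

theorem meet45 {j i k i' : Fin m} (hi : i = k)
    {r y : ℝ} (h : OnArc (.w j i) (.a k) r y) (h' : OnArc (.a i') .bot r y) :
    Meet (.w j i) (.a k) (.a i') .bot r y := by
  have hr := range4 hi h
  subst hi
  have h5 := fact5 i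
  rcases h' with ⟨h2', h3', h4'⟩ | ⟨t', h0', h1', h2', h3'⟩
  · have hle : i ≤ i' := by
      have : (i.val : ℝ) ≤ i'.val := by linarith
      exact_mod_cast this
    have hge : i' ≤ i := by
      by_contra hcon
      have hlt : i.val < i'.val := by
        rw [not_le] at hcon
        exact hcon
      have := fact4 (m := m) hlt
      have h7 : (1 : ℝ) ≤ m := by
        have := fact7 i
        have h6 : (0 : ℝ) ≤ i.val := Nat.cast_nonneg _
        linarith
      linarith
    have hii : i = i' := le_antisymm hle hge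
    subst hii
    refine ⟨.a i, Or.inr rfl, Or.inl rfl, ?_, Or.inr rfl⟩
    simp only [pos2, Prod.mk.injEq]
    constructor <;> linarith
  · exfalso
    linarith

theorem meet55 {i i' : Fin m} (hne : ¬ i = i')
    {r y : ℝ} (h : OnArc (.a i) .bot r y) (h' : OnArc (.a i') .bot r y) :
    Meet (.a i) .bot (.a i') .bot r y := by
  have key : (i.val : ℝ) ≠ i'.val := fun h => hne (Fin.ext (by exact_mod_cast h))
  rcases h with ⟨h2, h3, h4⟩ | ⟨t, h0, h1, h2, h3⟩ <;>
    rcases h' with ⟨h2', h3', h4'⟩ | ⟨t', h0', h1', h2', h3'⟩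
  · exact absurd (by linarith) key
  · have ht : t' = 0 := by linarith
    subst ht
    exact absurd (by linarith) key
  · have ht : t = 0 := by linarith
    subst ht
    exact absurd (by linarith) key
  · have htt : t = t' := by linarith
    subst htt
    have h8 : (1 - t) * ((i.val : ℝ) - i'.val) = 0 := by linarith
    rcases mul_eq_zero.1 h8 with h9 | h9
    · refine ⟨.bot, Or.inr rfl, Or.inr rfl, ?_, Or.inl ?_⟩
      · simp only [pos2, Prod.mk.injEq]
        rw [h9] at h2
        constructor <;> linarith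
      · rw [h9] at h2; linarith
    · exact absurd (by linarith) key

theorem meet12 {j i j' i' k' l' : Fin m} (hi : i.val = 0) (hl : l'.val = i'.val + 1)
    (hp : (1 : Fin 3) = par i') {r y : ℝ} (h : OnArc .top (.w j i) r y)
    (h' : OnArc (.w j' i') (.w k' l') r y) : False := by
  have h1 := lower12 hi h
  have h2 := (range2 hl h').1
  have h3 := par_one hp
  have h4 : (0 : ℕ) < i'.val := by omega
  have h5 := fact4 (m := m) h4
  simp only [Nat.cast_zero, zero_mul, zero_add] at h5
  linarith

theorem meet13 {j i j' i' : Fin m} (hi : i.val = 0)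
    (hp : (1 : Fin 3) = par i') {r y : ℝ} (h : OnArc .top (.w j i) r y)
    (h' : OnArc (.w j' i') .bot r y) : False := by
  have h1 := lower12 hi h
  have h2 := lower3 h'
  have h3 := par_one hp
  have h4 : (0 : ℕ) < i'.val := by omega
  have h5 := fact4 (m := m) h4
  simp only [Nat.cast_zero, zero_mul, zero_add] at h5
  linarith

theorem meet23 {j i k l j' i' : Fin m} (hl : l.val = i.val + 1) (hi' : i'.val + 1 = m)
    (hp : par i = par i') {r y : ℝ} (h : OnArc (.w j i) (.w k l) r y)
    (h' : OnArc (.w j' i') .bot r y) : False := by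
  have h1 := (range2 hl h).2
  have h2 := lower3 h'
  have h3 := par_eq hp
  have h4 : i.val + 1 < i'.val := by
    have := l.isLt
    omega
  have h5 := fact4 (m := m) h4
  push_cast at h5
  linarith

theorem meet_all {b a b' a' : Vx m} (hba : arc b a) (hba' : arc b' a') (hne : ¬ (b = b' ∧ a = a'))
    (hp : page b a = page b' a') {r y : ℝ} (h : OnArc b a r y) (h' : OnArc b' a' r y) :
    Meet b a b' a' r y := by
  rcases b with _ | _ | i | ⟨j, i⟩ <;> rcases a with _ | _ | k | ⟨k, l⟩ <;>
    simp only [arc] at hba <;>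
    rcases b' with _ | _ | i' | ⟨j', i'⟩ <;> rcases a' with _ | _ | k' | ⟨k', l'⟩ <;>
    simp only [arc] at hba' <;> simp only [page] at hp
  · exact meet11 hba hba' (fun hkk => hne ⟨rfl, by rw [hkk, show l = l' from Fin.ext (by omega)]⟩) h h'
  · exact absurd hp (by decide)
  · exact (meet13 hba hp h h').elim
  · exact absurd hp (by decide)
  · exact (meet12 hba hba'.2 hp h h').elim
  · exact absurd hp (by decide)
  · exact meet55 (fun hkk => hne ⟨by rw [hkk], rfl⟩) h h'
  · exact absurd hp.symm (par_ne_two _)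
  · exact meet_symm (by simp only [page]) (meet45 hba'.1 h' h)
  · exact absurd hp.symm (par_ne_two _)
  · exact (meet13 hba' hp.symm h' h).elim
  · exact absurd hp (par_ne_two _)
  · exact meet33 hba hba' (fun hkk => hne ⟨by rw [hkk, show i = i' from Fin.ext (by omega)], rfl⟩) h h'
  · exact absurd hp (par_ne_two _)
  · exact (meet23 hba'.2 hba hp.symm h' h).elim
  · exact absurd hp (by decide)
  · exact meet45 hba.1 h h'
  · exact absurd hp.symm (par_ne_two _)
  · exact meet44 hba.1 hba'.1 hne h h'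
  · exact absurd hp.symm (par_ne_two _)
  · exact (meet12 hba' hba.2 hp.symm h' h).elim
  · exact absurd hp (par_ne_two _)
  · exact (meet23 hba.2 hba' hp h h').elim
  · exact absurd hp (par_ne_two _)
  · exact (meet22 hba.1 hba.2 hba'.1 hba'.2 hp hne h h').elim


theorem pos2_nonneg (v : Vx m) : 0 ≤ (pos2 v).1 := by
  rcases v with _ | _ | i | ⟨j, i⟩ <;> simp only [pos2]
  · norm_num
  · norm_num
  · have := fact7 i; linarith
  · norm_num

theorem pos2_inj {v v' : Vx m} (h : pos2 v = pos2 v') : v = v' := by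
  have hm : ∀ i : Fin m, (1 : ℝ) ≤ m := fun i => by
    have := fact7 i
    have h6 : (0 : ℝ) ≤ i.val := Nat.cast_nonneg _
    linarith
  rcases v with _ | _ | i | ⟨j, i⟩ <;> rcases v' with _ | _ | i' | ⟨j', i'⟩ <;>
    simp only [pos2, Prod.mk.injEq] at h
  · rfl
  · exfalso; linarith [h.1]
  · exfalso
    have := fact6 i'
    have := hm i'
    linarith [h.2]
  · exfalso
    have : (0 : ℝ) ≤ dep j' i' := Nat.cast_nonneg _
    linarith [h.2]
  · exfalso; linarith [h.1]
  · rfl
  · exfalso
    have := fact7 i'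
    linarith [h.1]
  · exfalso
    have := fact2 j' i'
    have := fact5 i'
    linarith [h.2]
  · exfalso
    have := fact6 i
    have := hm i
    linarith [h.2]
  · exfalso
    have := fact7 i
    linarith [h.1]
  · have : (i.val : ℝ) = i'.val := by linarith [h.1]
    rw [show i = i' from Fin.ext (by exact_mod_cast this)]
  · exfalso
    have := fact7 i
    linarith [h.1]
  · exfalso
    have : (0 : ℝ) ≤ dep j i := Nat.cast_nonneg _
    linarith [h.2]
  · exfalso
    have := fact2 j i
    have := fact5 i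
    linarith [h.2]
  · exfalso
    have := fact7 i'
    linarith [h.1]
  · obtain ⟨h1, h2⟩ := dep_inj_real h.2
    rw [h1, h2]

theorem avoid2 {b a v : Vx m} (hba : arc b a) (h : OnArc b a (pos2 v).1 (pos2 v).2)
    (hr : (pos2 v).1 ≠ 0) (hp : page b a = pg v) : v = b ∨ v = a := by
  rcases v with _ | _ | i | ⟨j, i⟩
  · rcases b with _ | _ | k | ⟨k, l⟩ <;> rcases a with _ | _ | k' | ⟨k', l'⟩ <;>
      simp only [arc] at hba <;> simp only [page, pg] at hp
    · exact Or.inl rfl
    · exact absurd hp (by decide)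
    · have := lower3 h
      simp only [pos2] at this
      have := fact6 l
      linarith
    · exact absurd hp (by decide)
    · have := (range2 hba.2 h).1
      simp only [pos2] at this
      have := fact6 l
      linarith
  · simp only [pos2] at hr
    exact absurd rfl hr
  · rcases b with _ | _ | k | ⟨k, l⟩ <;> rcases a with _ | _ | k' | ⟨k', l'⟩ <;>
      simp only [arc] at hba <;> simp only [page, pg] at hp
    · exact absurd hp (by decide)
    · left
      have h7 := fact5 i
      rcases h with ⟨h2, h3, h4⟩ | ⟨t, h0, h1, h2, h3⟩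
      · simp only [pos2] at h2
        have : (i.val : ℝ) = k.val := by linarith
        rw [show i = k from Fin.ext (by exact_mod_cast this)]
      · simp only [pos2] at h3
        exfalso
        linarith
    · exact absurd hp (par_ne_two _)
    · right
      obtain ⟨h2, h3, h4⟩ := range4 hba.1 h
      simp only [pos2] at h2 h3 h4
      have hlk : l = k' := hba.1
      subst hlk
      have h8 := fact7 l
      have h9 := fact7 i
      have hm0 : (0 : ℝ) ≤ i.val := Nat.cast_nonneg _
      rcases Nat.lt_trichotomy i.val l.val with hlt | heq | hlt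
      · have := fact4 (m := m) hlt
        exfalso
        linarith
      · rw [show i = l from Fin.ext heq]
      · have := fact4 (m := m) hlt
        exfalso
        linarith
    · exact absurd hp (par_ne_two _)
  · simp only [pos2] at hr
    exact absurd rfl hr

/-! ### Heights along the chains -/

theorem dep_lt_bot (j i : Fin m) : (dep j i : ℝ) + 1 ≤ (m : ℝ) * m := by
  have := fact2 j i
  have := fact5 i
  linarith

theorem chain2_ok {b a : Vx m} (hba : arc b a) :
    (chain2 b a).head? = some (pos2 b) ∧ (chain2 b a).getLast? = some (pos2 a) ∧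
      (chain2 b a).Pairwise (fun p q => p.2 < q.2) := by
  rcases b with _ | _ | i | ⟨j, i⟩ <;> rcases a with _ | _ | i' | ⟨j', i'⟩ <;>
    simp only [arc] at hba <;> simp only [chain2]
  · refine ⟨rfl, rfl, ?_⟩
    have : (0 : ℝ) ≤ dep j' i' := Nat.cast_nonneg _
    simp only [pos2, List.pairwise_cons, List.mem_cons, List.not_mem_nil, or_false, forall_eq,
      IsEmpty.forall_iff, implies_true, List.Pairwise.nil, and_true]
    linarith
  · refine ⟨rfl, rfl, ?_⟩
    have := fact5 i
    simp only [pos2, List.pairwise_cons, List.mem_cons, List.not_mem_nil, or_false, forall_eq_or_imp,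
      forall_eq, IsEmpty.forall_iff, implies_true, List.Pairwise.nil, and_true]
    refine ⟨⟨?_, ?_⟩, ?_⟩ <;> linarith
  · refine ⟨rfl, rfl, ?_⟩
    have := dep_lt_bot j i
    simp only [pos2, List.pairwise_cons, List.mem_cons, List.not_mem_nil, or_false, forall_eq_or_imp,
      forall_eq, IsEmpty.forall_iff, implies_true, List.Pairwise.nil, and_true]
    refine ⟨⟨?_, ?_⟩, ?_⟩ <;> linarith
  · refine ⟨rfl, rfl, ?_⟩
    have := fact2 j i
    rw [hba.1] at this ⊢
    simp only [pos2, List.pairwise_cons, List.mem_cons, List.not_mem_nil, or_false, forall_eq,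
      IsEmpty.forall_iff, implies_true, List.Pairwise.nil, and_true]
    linarith
  · refine ⟨rfl, rfl, ?_⟩
    have h1 := fact2 j i
    have h2 := fact3 j i i' hba.2
    have h3 := fact1 j' i'
    have h4 : (i'.val : ℝ) * m = (i.val : ℝ) * m + m := by rw [hba.2]; push_cast; ring
    simp only [pos2, List.pairwise_cons, List.mem_cons, List.not_mem_nil, or_false, forall_eq_or_imp,
      forall_eq, IsEmpty.forall_iff, implies_true, List.Pairwise.nil, and_true]
    refine ⟨⟨?_, ?_⟩, ?_⟩ <;> linarith

theorem depth_lt {b a : Vx m} (hba : arc b a) : (pos2 b).2 < (pos2 a).2 := by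
  obtain ⟨h1, h2, h3⟩ := chain2_ok hba
  rcases b with _ | _ | i | ⟨j, i⟩ <;> rcases a with _ | _ | i' | ⟨j', i'⟩ <;>
    simp only [arc] at hba <;> simp only [chain2, List.pairwise_cons, List.mem_cons,
      List.not_mem_nil, or_false, forall_eq_or_imp, forall_eq] at h3
  · exact h3.1
  · exact h3.1.2
  · exact h3.1.2
  · exact h3.1
  · exact h3.1.2

theorem depth_lt_of_trans {b a : Vx m} (h : Relation.TransGen arc b a) :
    (pos2 b).2 < (pos2 a).2 := by
  induction h with
  | single h => exact depth_lt h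
  | tail _ h ih => exact ih.trans (depth_lt h)

/-- The bounded acyclic oriented graph used in the proof. -/
def grid (m : ℕ) : Aograph (Vx m) where
  arc := arc
  acyclic := fun v h => lt_irrefl _ (depth_lt_of_trans h)

/-! ### The lift to three-space -/

/-- the point of a page with planar coordinates `x` -/
noncomputable def lift (u v : ℝ) (x : ℝ × ℝ) : R3 := !₂[x.1 * u, x.1 * v, -x.2]

theorem lift_comb (u v a b : ℝ) (x y : ℝ × ℝ) :
    a • lift u v x + b • lift u v y = lift u v (a • x + b • y) := by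
  ext i
  fin_cases i <;> simp [lift] <;> ring

theorem mem_polyline_map (u v : ℝ) (l : List (ℝ × ℝ)) (p : R3)
    (hp : p ∈ polyline (l.map (lift u v))) : ∃ x ∈ polyline l, p = lift u v x := by
  induction l with
  | nil => simp [polyline] at hp
  | cons a l ih =>
    cases l with
    | nil =>
      simp only [List.map_cons, List.map_nil, polyline, Set.mem_singleton_iff] at hp
      exact ⟨a, by simp [polyline], hp⟩
    | cons b l =>
      simp only [List.map_cons, polyline, Set.mem_union] at hp
      rcases hp with hp | hp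
      · obtain ⟨s, t, hs, ht, hst, rfl⟩ := hp
        refine ⟨s • a + t • b, ?_, lift_comb _ _ _ _ _ _⟩
        simp only [polyline, Set.mem_union]
        exact Or.inl ⟨s, t, hs, ht, hst, rfl⟩
      · obtain ⟨x, hx, hpx⟩ := ih (by simpa only [List.map_cons] using hp)
        refine ⟨x, ?_, hpx⟩
        simp only [polyline, Set.mem_union]
        exact Or.inr hx

theorem lift_inj {u v u' v' : ℝ} (huv : u ≠ 0 ∨ v ≠ 0) {x x' : ℝ × ℝ} (hx : 0 ≤ x.1) (hx' : 0 ≤ x'.1)
    (h : lift u v x = lift u' v' x')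
    (hd : {p : R3 | ∃ r : ℝ, 0 ≤ r ∧ p 0 = r * u ∧ p 1 = r * v} ≠
      {p : R3 | ∃ r : ℝ, 0 ≤ r ∧ p 0 = r * u' ∧ p 1 = r * v'}) (huv' : u' ≠ 0 ∨ v' ≠ 0) :
    x.1 = 0 ∧ x'.1 = 0 ∧ x.2 = x'.2 := by
  have h0 : x.1 * u = x'.1 * u' := by
    have := congrArg (fun p : R3 => p 0) h
    simpa [lift] using this
  have h1 : x.1 * v = x'.1 * v' := by
    have := congrArg (fun p : R3 => p 1) h
    simpa [lift] using this
  have h2 : x.2 = x'.2 := by
    have := congrArg (fun p : R3 => p 2) h
    simpa [lift] using this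
  have hboth : x.1 = 0 → x'.1 = 0 := by
    intro hz
    rw [hz, zero_mul] at h0 h1
    rcases huv' with h | h
    · rcases mul_eq_zero.1 h0.symm with h' | h'
      · exact h'
      · exact absurd h' h
    · rcases mul_eq_zero.1 h1.symm with h' | h'
      · exact h'
      · exact absurd h' h
  by_cases hz : x.1 = 0
  · exact ⟨hz, hboth hz, h2⟩
  · exfalso
    have hz' : x'.1 ≠ 0 := by
      intro hz'
      rw [hz', zero_mul] at h0 h1
      rcases huv with h | h
      · rcases mul_eq_zero.1 h0 with h' | h'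
        · exact hz h'
        · exact h h'
      · rcases mul_eq_zero.1 h1 with h' | h'
        · exact hz h'
        · exact h h'
    have hpos : 0 < x.1 := lt_of_le_of_ne hx (Ne.symm hz)
    have hpos' : 0 < x'.1 := lt_of_le_of_ne hx' (Ne.symm hz')
    apply hd
    have hu : u = x'.1 / x.1 * u' := by field_simp; linarith
    have hv : v = x'.1 / x.1 * v' := by field_simp; linarith
    have hu' : u' = x.1 / x'.1 * u := by field_simp; linarith
    have hv' : v' = x.1 / x'.1 * v := by field_simp; linarith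
    ext p
    constructor
    · rintro ⟨r, hr, h3, h4⟩
      refine ⟨r * (x'.1 / x.1), by positivity, ?_, ?_⟩
      · rw [h3, mul_assoc, ← hu]
      · rw [h4, mul_assoc, ← hv]
    · rintro ⟨r, hr, h3, h4⟩
      refine ⟨r * (x.1 / x'.1), by positivity, ?_, ?_⟩
      · rw [h3, mul_assoc, ← hu']
      · rw [h4, mul_assoc, ← hv']

theorem lift_inj_same {u v : ℝ} (huv : u ≠ 0 ∨ v ≠ 0) {x x' : ℝ × ℝ}
    (h : lift u v x = lift u v x') : x = x' := by
  have h0 : x.1 * u = x'.1 * u := by
    have := congrArg (fun p : R3 => p 0) h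
    simpa [lift] using this
  have h1 : x.1 * v = x'.1 * v := by
    have := congrArg (fun p : R3 => p 1) h
    simpa [lift] using this
  have h2 : x.2 = x'.2 := by
    have := congrArg (fun p : R3 => p 2) h
    simpa [lift] using this
  rcases huv with h | h
  · exact Prod.ext (mul_right_cancel₀ h h0) h2
  · exact Prod.ext (mul_right_cancel₀ h h1) h2

theorem lift_zero (u v u' v' y : ℝ) : lift u v (0, y) = lift u' v' (0, y) := by
  simp [lift]

theorem embeds (n : ℕ) (hn : 3 ≤ n) (B : Set R3) (hB : IsBook n B) (m : ℕ) :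
    (grid m).EmbedsIn B := by
  obtain ⟨H, hHinj, hHpage, rfl⟩ := hB
  let c : Fin 3 → Fin n := Fin.castLE hn
  have hc : Function.Injective c := Fin.castLE_injective hn
  choose u v huv hH using hHpage
  let P : Fin 3 → ℝ × ℝ → R3 := fun k x => lift (u (c k)) (v (c k)) x
  have hPmem : ∀ k x, 0 ≤ x.1 → P k x ∈ ⋃ i, H i := by
    intro k x hx
    refine Set.mem_iUnion.2 ⟨c k, ?_⟩
    rw [hH]
    exact ⟨x.1, hx, by simp [P, lift], by simp [P, lift]⟩
  have hPP : ∀ k k' x x', 0 ≤ x.1 → 0 ≤ x'.1 → P k x = P k' x' →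
      (k = k' ∧ x = x') ∨ (x.1 = 0 ∧ x = x') := by
    intro k k' x x' hx hx' h
    by_cases hk : k = k'
    · subst hk
      exact Or.inl ⟨rfl, lift_inj_same (huv _) h⟩
    · right
      have hne : H (c k) ≠ H (c k') := fun h' => hk (hc (hHinj h'))
      rw [hH, hH] at hne
      obtain ⟨h1, h2, h3⟩ := lift_inj (huv _) hx hx' h hne (huv _)
      exact ⟨h1, Prod.ext (by rw [h1, h2]) h3⟩
  have hzero : ∀ k k' (x : ℝ × ℝ), x.1 = 0 → P k x = P k' x := by
    intro k k' x hx
    obtain ⟨r, y⟩ := x
    simp only at hx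
    subst hx
    exact lift_zero _ _ _ _ _
  have hsplit : ∀ (b a : Vx m) (_ : arc b a) (p : R3),
      p ∈ polyline ((chain2 b a).map (P (page b a))) →
      ∃ x : ℝ × ℝ, OnArc b a x.1 x.2 ∧ 0 ≤ x.1 ∧ p = P (page b a) x := by
    intro b a hba p hp
    obtain ⟨x, hx, rfl⟩ := mem_polyline_map _ _ _ _ hp
    have h1 := onArc_of_mem hba hx
    exact ⟨x, h1, onArc_nonneg hba h1, rfl⟩
  refine ⟨fun w => P (pg w) (pos2 w), fun b a => (chain2 b a).map (P (page b a)), ?_, ?_, ?_, ?_, ?_⟩
  · intro w w' h
    rcases hPP _ _ _ _ (pos2_nonneg w) (pos2_nonneg w') h with ⟨_, h2⟩ | ⟨_, h2⟩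
    · exact pos2_inj h2
    · exact pos2_inj h2
  · intro w
    exact hPmem _ _ (pos2_nonneg w)
  · intro b a hba
    have hba' : arc b a := hba
    obtain ⟨h1, h2, h3⟩ := chain2_ok hba'
    have hb : P (page b a) (pos2 b) = P (pg b) (pos2 b) := by
      rcases b with _ | _ | i | ⟨j, i⟩ <;> rcases a with _ | _ | i' | ⟨j', i'⟩ <;>
        simp only [arc] at hba'
      · rfl
      · rfl
      · exact hzero _ _ _ rfl
      · exact hzero _ _ _ rfl
      · exact hzero _ _ _ rfl
    have ha : P (page b a) (pos2 a) = P (pg a) (pos2 a) := by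
      rcases b with _ | _ | i | ⟨j, i⟩ <;> rcases a with _ | _ | i' | ⟨j', i'⟩ <;>
        simp only [arc] at hba'
      · exact hzero _ _ _ rfl
      · exact hzero _ _ _ rfl
      · exact hzero _ _ _ rfl
      · rfl
      · exact hzero _ _ _ rfl
    refine ⟨?_, ?_, ?_, ?_⟩
    · rw [List.head?_map, h1, Option.map_some, hb]
    · rw [List.getLast?_map, h2, Option.map_some, ha]
    · unfold Descending
      rw [List.pairwise_map]
      refine h3.imp ?_
      intro x y hxy
      simp [P, lift]
      exact hxy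
    · intro p hp
      obtain ⟨x, h4, h5, rfl⟩ := hsplit b a hba' p hp
      exact hPmem _ _ h5
  · intro b a w hba hp
    obtain ⟨x, h4, h5, h6⟩ := hsplit b a hba _ hp
    rcases hPP _ _ _ _ (pos2_nonneg w) h5 h6 with ⟨h7, h8⟩ | ⟨h7, h8⟩
    · by_cases h0 : (pos2 w).1 = 0
      · rw [← h8] at h4
        rw [h0] at h4
        obtain ⟨w', hw', hw2⟩ := spine hba h4
        have : w = w' := pos2_inj (by rw [← hw2, ← h0])
        rw [this]; exact hw'
      · rw [← h8] at h4
        exact avoid2 hba h4 h0 h7.symm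
    · rw [← h8] at h4
      rw [h7] at h4
      obtain ⟨w', hw', hw2⟩ := spine hba h4
      have : w = w' := pos2_inj (by rw [← hw2, ← h7])
      rw [this]; exact hw'
  · intro b a b' a' hba hba' hne p hp hp'
    obtain ⟨x, h4, h5, h6⟩ := hsplit b a hba p hp
    obtain ⟨x', h4', h5', h6'⟩ := hsplit b' a' hba' p hp'
    have h7 : P (page b a) x = P (page b' a') x' := by rw [← h6, ← h6']
    rcases hPP _ _ _ _ h5 h5' h7 with ⟨h8, h9⟩ | ⟨h8, h9⟩
    · subst h9
      obtain ⟨w, hw1, hw2, hw3, hw4⟩ := meet_all hba hba' hne h8 h4 h4'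
      refine ⟨w, hw1, hw2, ?_⟩
      have hw5 : x = pos2 w := hw3
      show p = P (pg w) (pos2 w)
      rcases hw4 with hw4 | hw4
      · rw [h6, ← hw5]
        exact hzero _ _ _ hw4
      · rw [h6, ← hw5, hw4]
    · subst h9
      rw [h8] at h4 h4'
      obtain ⟨w, hw1, hw2⟩ := spine hba h4
      obtain ⟨w', hw1', hw2'⟩ := spine hba' h4'
      have hww : w = w' := pos2_inj (by rw [← hw2, ← hw2'])
      subst hww
      refine ⟨w, hw1, hw1', ?_⟩
      have hx : x = pos2 w := by rw [← hw2, ← h8]
      show p = P (pg w) (pos2 w)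
      rw [h6, ← hx]
      exact hzero _ _ _ h8


/-! ### Boundedness -/

theorem top_to_w (j : Fin m) : ∀ (k : ℕ) (i : Fin m), i.val = k →
    Relation.ReflTransGen arc (Vx.top : Vx m) (Vx.w j i) := by
  intro k
  induction k with
  | zero =>
    intro i hi
    exact Relation.ReflTransGen.single (show arc Vx.top (Vx.w j i) from hi)
  | succ k ih =>
    intro i hi
    have hk : k < m := by have := i.isLt; omega
    exact (ih ⟨k, hk⟩ rfl).tail (show arc (Vx.w j ⟨k, hk⟩) (Vx.w j i) from ⟨rfl, hi⟩)

theorem w_to_bot (j : Fin m) : ∀ (k : ℕ) (i : Fin m), i.val + 1 + k = m →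
    Relation.ReflTransGen arc (Vx.w j i) (Vx.bot : Vx m) := by
  intro k
  induction k with
  | zero =>
    intro i hi
    exact Relation.ReflTransGen.single (show arc (Vx.w j i) Vx.bot from hi)
  | succ k ih =>
    intro i hi
    have hk : i.val + 1 < m := by omega
    exact Relation.ReflTransGen.head
      (show arc (Vx.w j i) (Vx.w j ⟨i.val + 1, hk⟩) from ⟨rfl, rfl⟩)
      (ih ⟨i.val + 1, hk⟩ (by simp only; omega))

theorem grid_bounded (hm : 2 ≤ m) : (grid m).Bounded := by
  have hne : ∀ i : Fin m, ∃ j : Fin m, j ≠ i := by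
    intro i
    by_cases h : i.val = 0
    · refine ⟨⟨1, by omega⟩, fun h' => ?_⟩
      have := congrArg Fin.val h'
      simp only at this
      omega
    · refine ⟨⟨0, by omega⟩, fun h' => ?_⟩
      have := congrArg Fin.val h'
      simp only at this
      omega
  have hw : ∀ j i : Fin m, Relation.ReflTransGen arc (Vx.w j i) (Vx.bot : Vx m) := fun j i =>
    w_to_bot j (m - 1 - i.val) i (by have := i.isLt; omega)
  refine ⟨⟨Vx.top, ?_⟩, ⟨Vx.bot, ?_⟩⟩
  · intro x
    show Relation.ReflTransGen arc Vx.top x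
    rcases x with _ | _ | i | ⟨j, i⟩
    · exact Relation.ReflTransGen.refl
    · have j0 : Fin m := ⟨0, by omega⟩
      exact (top_to_w j0 _ j0 rfl).trans (hw j0 j0)
    · obtain ⟨j, hj⟩ := hne i
      exact (top_to_w j _ i rfl).tail (show arc (Vx.w j i) (Vx.a i) from ⟨rfl, hj⟩)
    · exact top_to_w j _ i rfl
  · intro x
    show Relation.ReflTransGen arc x Vx.bot
    rcases x with _ | _ | i | ⟨j, i⟩
    · have j0 : Fin m := ⟨0, by omega⟩
      exact (top_to_w j0 _ j0 rfl).trans (hw j0 j0)
    · exact Relation.ReflTransGen.refl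
    · exact Relation.ReflTransGen.single (show arc (Vx.a i) Vx.bot from trivial)
    · exact hw j i

/-! ### Dimension -/

theorem reach_a {i : Fin m} (hm : 0 < m) : ¬ Relation.ReflTransGen arc (Vx.w i ⟨0, hm⟩) (Vx.a i) := by
  intro h
  have key : ∀ x : Vx m, Relation.ReflTransGen arc (Vx.w i ⟨0, hm⟩) x →
      (x = Vx.bot ∨ (∃ k, x = Vx.w i k) ∨ (∃ k, k ≠ i ∧ x = Vx.a k)) := by
    intro x hx
    induction hx with
    | refl => exact Or.inr (Or.inl ⟨_, rfl⟩)
    | tail _ h2 ih =>
      rename_i b c _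
      rcases ih with rfl | ⟨k, rfl⟩ | ⟨k, hk, rfl⟩
      · rcases c with _ | _ | k' | ⟨j', k'⟩ <;> simp only [arc] at h2
      · rcases c with _ | _ | k' | ⟨j', k'⟩ <;> simp only [arc] at h2
        · exact Or.inl rfl
        · obtain ⟨rfl, h3⟩ := h2
          exact Or.inr (Or.inr ⟨k, Ne.symm h3, rfl⟩)
        · obtain ⟨rfl, h3⟩ := h2
          exact Or.inr (Or.inl ⟨k', rfl⟩)
      · rcases c with _ | _ | k' | ⟨j', k'⟩ <;> simp only [arc] at h2
        · exact Or.inl rfl
  rcases key _ h with h | ⟨k, h⟩ | ⟨k, hk, h⟩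
  · exact absurd h (by simp)
  · exact absurd h (by simp)
  · simp only [Vx.a.injEq] at h
    exact hk h.symm

theorem a_le_w (hm : 0 < m) {i j : Fin m} (hij : j ≠ i) :
    Relation.ReflTransGen arc (Vx.w j ⟨0, hm⟩) (Vx.a i) := by
  have key : ∀ (k : ℕ) (i : Fin m), i.val = k →
      Relation.ReflTransGen arc (Vx.w j ⟨0, hm⟩) (Vx.w j i) := by
    intro k
    induction k with
    | zero =>
      intro i hi
      have : i = ⟨0, hm⟩ := Fin.ext hi
      rw [this]
    | succ k ih =>
      intro i hi
      have hk : k < m := by have := i.isLt; omega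
      exact (ih ⟨k, hk⟩ rfl).tail (show arc (Vx.w j ⟨k, hk⟩) (Vx.w j i) from ⟨rfl, hi⟩)
  exact (key _ i rfl).tail (show arc (Vx.w j i) (Vx.a i) from ⟨rfl, hij⟩)

theorem realizer_ge (hm : 0 < m) {t : ℕ} (h : HasRealizer (grid m).le t) : m ≤ t := by
  obtain ⟨L, hL, hle⟩ := h
  have h1 : ∀ i : Fin m, ∃ k : Fin t, ¬ L k (Vx.a i) (Vx.w i ⟨0, hm⟩) := by
    intro i
    have : ¬ (grid m).le (Vx.a i) (Vx.w i ⟨0, hm⟩) := reach_a hm
    rw [hle] at this
    push Not at this
    exact this
  choose f hf using h1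
  have hinj : Function.Injective f := by
    intro i i' hii
    by_contra hne
    have e1 := hf i
    have e2 := hf i'
    rw [← hii] at e2
    obtain ⟨_, hanti, htrans, htot, hext⟩ := hL (f i)
    have g1 : L (f i) (Vx.w i ⟨0, hm⟩) (Vx.a i) := (htot _ _).resolve_left e1
    have g2 : L (f i) (Vx.w i' ⟨0, hm⟩) (Vx.a i') := (htot _ _).resolve_left e2
    have g3 : L (f i) (Vx.a i) (Vx.w i' ⟨0, hm⟩) := hext _ _ (a_le_w hm (Ne.symm hne))
    have g4 : L (f i) (Vx.a i') (Vx.w i ⟨0, hm⟩) := hext _ _ (a_le_w hm hne)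
    exact e1 (htrans _ _ _ g3 (htrans _ _ _ g2 g4))
  simpa using Fintype.card_le_of_injective f hinj

theorem dim_ge (hm : 0 < m) : m ≤ (grid m).dim := by
  have : Nonempty (Vx m) := ⟨Vx.top⟩
  obtain ⟨t, ht⟩ := exists_realizer (grid m)
  have : sInf {t : ℕ | 0 < t ∧ HasRealizer (grid m).le t} ∈
      {t : ℕ | 0 < t ∧ HasRealizer (grid m).le t} := Nat.sInf_mem ⟨t, ht⟩
  exact realizer_ge hm this.2

/-- **Main theorem.**  Let `n ≥ 3` and let `B` be a book with `n` pages.  Then for every `d` there is a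
bounded acyclic oriented graph (on a finite vertex set) of dimension at least `d` that has an
order-preserving embedding in `B`. -/
theorem result :
    ∀ n : ℕ, 3 ≤ n → ∀ B : Set R3, IsBook n B → ∀ d : ℕ,
      ∃ (V : Type) (_ : Finite V) (G : Aograph V), G.Bounded ∧ d ≤ G.dim ∧ G.EmbedsIn B := by
  intro n hn B hB d
  refine ⟨Vx (d + 2), inferInstance, grid (d + 2), grid_bounded (by omega), ?_, embeds n hn B hB _⟩
  have := dim_ge (m := d + 2) (by omega)
  omega

end Pool.Agent.Results.MP_c8a2a1_co.BookDimension
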